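import Pool.Agent.helper29.PQ.Spec
import Pool.Agent.helper35.LinPrimes.SieveU

/-!
# Row A1 of project pq: pair bound for all small shifts
-/

namespace Pool.Agent.helper29.PQ

open Finset Pool.Agent.helper35.LinPrimes Pool.Agent.helper74.TG

theorem A1_ev (D : ℕ) : ∃ s₀ : ℝ, ∀ s : ℝ, s₀ ≤ s →
    (2 * (2 * Real.log s) ^ 60) ^ D + 1 ≤ s ∧ (2 * Real.log s) ^ 2 ≤ s ∧ 3 ≤ s := by
  have h1 : ∀ᶠ s : ℝ in Filter.atTop, ‖Real.log s ^ (60 * D)‖ ≤
      (1 / (2 * (2 * 2 ^ 60) ^ D)) * ‖id s‖ := by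
    have := (Real.isLittleO_pow_log_id_atTop (n := 60 * D)).bound
      (show (0 : ℝ) < 1 / (2 * (2 * 2 ^ 60) ^ D) by positivity)
    exact this
  have h2 : ∀ᶠ s : ℝ in Filter.atTop, ‖Real.log s ^ 2‖ ≤ (1 / 4) * ‖id s‖ := by
    have := (Real.isLittleO_pow_log_id_atTop (n := 2)).bound (show (0 : ℝ) < 1 / 4 by norm_num)
    exact this
  have h3 : ∀ᶠ s : ℝ in Filter.atTop, 3 ≤ s := Filter.eventually_ge_atTop 3
  obtain ⟨s₀, hs₀⟩ := Filter.eventually_atTop.1 ((h1.and h2).and h3)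
  refine ⟨s₀, fun s hs => ?_⟩
  obtain ⟨⟨a, b⟩, c⟩ := hs₀ s hs
  have hs0 : 0 < s := by linarith
  have hid : ‖id s‖ = s := by
    rw [id, Real.norm_eq_abs, abs_of_pos hs0]
  rw [hid] at a b
  have hK : (0 : ℝ) < (2 * 2 ^ 60) ^ D := by positivity
  refine ⟨?_, ?_, c⟩
  · have e : (2 * (2 * Real.log s) ^ 60) ^ D = (2 * 2 ^ 60) ^ D * Real.log s ^ (60 * D) := by
      rw [mul_pow 2 (Real.log s) 60, ← mul_assoc, mul_pow, pow_mul]
    rw [e]
    have a1 : Real.log s ^ (60 * D) ≤ 1 / (2 * (2 * 2 ^ 60) ^ D) * s := by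
      rw [Real.norm_eq_abs] at a
      exact le_trans (le_abs_self _) a
    have a2 : (2 * 2 ^ 60) ^ D * Real.log s ^ (60 * D) ≤ s / 2 := by
      calc (2 * 2 ^ 60) ^ D * Real.log s ^ (60 * D)
          ≤ (2 * 2 ^ 60) ^ D * (1 / (2 * (2 * 2 ^ 60) ^ D) * s) := by gcongr
        _ = s / 2 := by field_simp
    refine le_trans (add_le_add a2 le_rfl) ?_
    linarith
  · have b1 : Real.log s ^ 2 ≤ 1 / 4 * s := by
      rw [Real.norm_eq_abs] at b
      exact le_trans (le_abs_self _) b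
    nlinarith

theorem A1 : A1_stmt := by
  classical
  obtain ⟨C₂, hC, D, hP⟩ := pairU
  obtain ⟨s₀, hs₀⟩ := A1_ev D
  refine ⟨16 * C₂ + 1, by positivity, ⌈(max s₀ 3) ^ 2⌉₊, ?_⟩
  intro Y hY g hg hgl
  have hYr : (max s₀ 3) ^ 2 ≤ (Y : ℝ) := (Nat.le_ceil _).trans (by exact_mod_cast hY)
  obtain ⟨s, hs⟩ : ∃ s, s = Real.sqrt Y := ⟨_, rfl⟩
  have hsm : max s₀ 3 ≤ s := by
    rw [hs]
    exact Real.le_sqrt_of_sq_le hYr
  obtain ⟨c1, c2, c3⟩ := hs₀ s ((le_max_left _ _).trans hsm)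
  have hs0 : 0 < s := by linarith
  have hY0 : (0 : ℝ) ≤ Y := Nat.cast_nonneg _
  have hss : s ^ 2 = Y := by rw [hs]; exact Real.sq_sqrt hY0
  have hlogs : 1 < Real.log s := by
    have : Real.log 3 ≤ Real.log s := Real.log_le_log (by norm_num) c3
    have h3 : 1 < Real.log 3 := by
      rw [Real.lt_log_iff_exp_lt (by norm_num)]
      exact Real.exp_one_lt_three
    linarith
  have hlogY : Real.log Y = 2 * Real.log s := by
    rw [← hss, Real.log_pow]; norm_num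
  obtain ⟨T, hT⟩ : ∃ T, T = Nat.sqrt Y := ⟨_, rfl⟩
  have hT1 : s < (T : ℝ) + 1 := by
    have h1 : Y < (T + 1) * (T + 1) := by rw [hT]; exact Nat.lt_succ_sqrt Y
    have h2 : (Y : ℝ) < ((T : ℝ) + 1) ^ 2 := by
      have : (Y : ℝ) < (((T + 1) * (T + 1) : ℕ) : ℝ) := by exact_mod_cast h1
      push_cast at this
      nlinarith
    rw [← hss] at h2
    exact lt_of_pow_lt_pow_left₀ 2 (by positivity) h2
  have hT2 : (T : ℝ) ≤ s := by
    have h1 : T * T ≤ Y := by rw [hT]; exact Nat.sqrt_le Y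
    have h2 : (T : ℝ) ^ 2 ≤ s ^ 2 := by
      rw [hss]
      have : ((T * T : ℕ) : ℝ) ≤ (Y : ℝ) := by exact_mod_cast h1
      push_cast at this
      nlinarith
    exact le_of_sq_le_sq h2 hs0.le
  have hTY : T ≤ Y := by rw [hT]; exact Nat.sqrt_le_self Y
  -- the sieve condition
  have hcond : (1 * (g : ℤ).natAbs + 1) ^ D ≤ T := by
    have h1 : (((1 * (g : ℤ).natAbs + 1) ^ D : ℕ) : ℝ) < (T : ℝ) + 1 := by
      rw [Int.natAbs_natCast, one_mul]
      push_cast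
      have h3 : (g : ℝ) + 1 ≤ 2 * (2 * Real.log s) ^ 60 := by
        rw [hlogY] at hgl
        have h4 : (1 : ℝ) ≤ (2 * Real.log s) ^ 60 := one_le_pow₀ (by linarith)
        linarith
      have h5 : ((g : ℝ) + 1) ^ D ≤ (2 * (2 * Real.log s) ^ 60) ^ D :=
        pow_le_pow_left₀ (by positivity) h3 D
      linarith
    have h6 : (1 * (g : ℤ).natAbs + 1) ^ D < T + 1 := by exact_mod_cast h1
    omega
  have hgz : (g : ℤ) ≠ 0 := by exact_mod_cast hg.ne'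
  have key := hP 1 (g : ℤ) one_pos hgz (by simpa using isCoprime_one_left) T hcond 1 Y one_pos hTY
    (by simpa using isCoprime_one_left) (by simpa using isCoprime_one_left)
  have hh1 : h 1 = 1 := by simp [h]
  have hna : 1 * (g : ℤ).natAbs = g := by simp
  rw [hna, hh1] at key
  have hsub : {q ∈ Ioc 0 Y | q.Prime ∧ (q + g).Prime} ⊆ Ioc 0 T ∪ solQ 1 (g : ℤ) T 1 Y := by
    intro q hq
    rw [mem_filter, mem_Ioc] at hq
    obtain ⟨⟨q1, q2⟩, q3, q4⟩ := hq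
    rw [mem_union]
    by_cases hqT : q ≤ T
    · left; rw [mem_Ioc]; exact ⟨q1, hqT⟩
    · right
      rw [solQ, mem_filter, mem_Ioc]
      refine ⟨⟨by omega, q2⟩, q3, q + g, q4, by omega, ?_⟩
      push_cast
      ring
  have hcard : (#{q ∈ Ioc 0 Y | q.Prime ∧ (q + g).Prime} : ℝ) ≤
      (T : ℝ) + (#(solQ 1 (g : ℤ) T 1 Y) : ℝ) := by
    have h1 := (card_le_card hsub).trans (card_union_le _ _)
    rw [Nat.card_Ioc] at h1
    have h2 : #{q ∈ Ioc 0 Y | q.Prime ∧ (q + g).Prime} ≤ T + #(solQ 1 (g : ℤ) T 1 Y) := by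
      simpa using h1
    exact_mod_cast h2
  have hlogT : Real.log Y / 4 ≤ Real.log T := by
    have h1 : s ≤ (T : ℝ) ^ 2 := by nlinarith
    have h2 : Real.log s ≤ Real.log ((T : ℝ) ^ 2) := Real.log_le_log hs0 h1
    rw [Real.log_pow] at h2
    push_cast at h2
    rw [hlogY]
    linarith
  have hLY : 0 < Real.log Y := by rw [hlogY]; linarith
  have hlogT0 : 0 < Real.log T := by linarith
  have hhg := one_le_h g
  have h1 : (T : ℝ) ≤ Y / Real.log Y ^ 2 := by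
    rw [le_div_iff₀ (by positivity), hlogY]
    calc (T : ℝ) * (2 * Real.log s) ^ 2 ≤ s * s := by gcongr
      _ = s ^ 2 := by ring
      _ = Y := hss
  have h2 : C₂ * (h g * 1 * Y / (((1 : ℕ) : ℝ) * Real.log T ^ 2)) ≤
      16 * C₂ * h g * Y / Real.log Y ^ 2 := by
    have e1 : Real.log Y ^ 2 / 16 ≤ Real.log T ^ 2 := by nlinarith
    have hp : 0 ≤ C₂ * (h g * Y) := by positivity
    have e2 : C₂ * (h g * 1 * Y / (((1 : ℕ) : ℝ) * Real.log T ^ 2)) =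
        C₂ * (h g * Y) / Real.log T ^ 2 := by
      push_cast
      rw [one_mul]
      ring
    rw [e2]
    have e3 : 16 * C₂ * h g * Y / Real.log Y ^ 2 = C₂ * (h g * Y) / (Real.log Y ^ 2 / 16) := by
      field_simp
    rw [e3]
    gcongr
  have h3 : Y / Real.log Y ^ 2 ≤ h g * Y / Real.log Y ^ 2 := by
    have : (Y : ℝ) ≤ h g * Y := by nlinarith
    gcongr
  calc (#{q ∈ Ioc 0 Y | q.Prime ∧ (q + g).Prime} : ℝ)
      ≤ (T : ℝ) + (#(solQ 1 (g : ℤ) T 1 Y) : ℝ) := hcard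
    _ ≤ h g * Y / Real.log Y ^ 2 + 16 * C₂ * h g * Y / Real.log Y ^ 2 :=
        add_le_add (h1.trans h3) (key.trans h2)
    _ = (16 * C₂ + 1) * h g * Y / Real.log Y ^ 2 := by ring

end Pool.Agent.helper29.PQ
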